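import Mathlib
import Pool.Agent.H.MP_1b53c2_co.B

set_option autoImplicit false

namespace Pool.Agent.Results.MP_1b53c2_co.Yes

/-- tree-independence number at most k. -/
def TreeAlphaLE {V : Type} (G : SimpleGraph V) (k : ℕ) : Prop :=
  ∃ (m : ℕ) (T : SimpleGraph (Fin m)) (X : Fin m → Set V), T.IsTree ∧
    (∀ v, (T.induce {t | v ∈ X t}).Connected) ∧
    (∀ u v, G.Adj u v → ∃ t, u ∈ X t ∧ v ∈ X t) ∧
    ∀ t, (G.induce (X t)).indepNum ≤ k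

/-- fractionally tree-alpha-fragile class. -/
def Fragile (𝒢 : Set (Σ n : ℕ, SimpleGraph (Fin n))) : Prop :=
  ∃ f : ℕ → ℕ, ∀ r : ℕ, 1 ≤ r → ∀ G ∈ 𝒢, ∃ C : Multiset (Finset (Fin G.1)), C ≠ 0 ∧
    (∀ v, (1 - 1 / (r : ℝ)) * (C.card : ℝ) ≤ (C.countP (v ∈ ·) : ℝ)) ∧
    ∀ c ∈ C, TreeAlphaLE (G.2.induce (c : Set (Fin G.1))) (f r)

theorem result (𝒢 : Set (Σ n : ℕ, SimpleGraph (Fin n))) (h : Fragile 𝒢) :
    ∃ k : ℕ, ∀ G ∈ 𝒢, ∀ S : Set (Fin G.1), S.Nonempty →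
      ∃ v ∈ S, (G.2.induce (S ∩ G.2.neighborSet v)).indepNum ≤ k := by
  obtain ⟨f, hf⟩ := h
  refine ⟨6 * f 3 + 6 * f 3 ^ 2, fun G hG S hS => ?_⟩
  obtain ⟨C, c1, c2, c3⟩ := hf 3 (by norm_num) G hG
  refine H.MP_1b53c2_co.main G.2 (f 3) C c1 (fun v => ?_) c3 S hS
  have := c2 v
  have h2 : (2 * (C.card : ℝ)) ≤ 3 * (C.countP (v ∈ ·) : ℝ) := by
    push_cast at this
    linarith
  exact_mod_cast h2

end Pool.Agent.Results.MP_1b53c2_co.Yes
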